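import Pool.Agent.TH930.PS.Main
import Pool.Agent.TH930.EBQ.Main
import Pool.Agent.H828R3.GP.Three

/-! The `3x+k` maps: power saving beyond the entropy barrier. -/

set_option autoImplicit false

namespace Pool.Agent.TH930.PS

open Finset Filter Topology Pool.Agent.H499R2.ND Pool.Agent.H828R3.GP
open Pool.Agent.H319R3.GC (Adm Tm PP)
open Pool.Agent.H319R2 (beta beta_lt beta_gt)
open Pool.Agent.TH930.EBQ (ones wd kap Hh)

theorem T_eq (k : ℤ) : Pool.Agent.TH930.EBQ.T k = Td k := rfl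

theorem beta_eq : beta = Hh / Real.log 2 := rfl

/-- the multiplier of `n` steps -/
theorem Mu3 (k : ℤ) (n : ℕ) (x : ℤ) : Mu 2 m3 (r3 k) n x = 3 ^ ones (wd k n x) := by
  induction n with
  | zero => simp [Mu, wd, ones]
  | succ n ih =>
    rw [Mu_succ, ih, Tm3, EBQ.wd_append k n 1, EBQ.ones_append, pow_add]
    congr 1
    rw [T_eq]
    set z := (Td k)^[n] x with hz
    rcases Int.emod_two_eq_zero_or_one z with h | h
    · have : (z % ((2 : ℕ) : ℤ)).toNat = 0 := by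
        push_cast; rw [h]; rfl
      rw [this]
      simp [m3, wd, h]
    · have : (z % ((2 : ℕ) : ℤ)).toNat = 1 := by
        push_cast; rw [h]; rfl
      rw [this]
      simp [m3, wd, h]

/-- the large multipliers along an orbit that stays above `2^(i-1)` -/
theorem stay_mult {k : ℤ} (hk : Odd k) {i n : ℕ} (hi : 1 ≤ i)
    (hn : 4 * (n : ℝ) * |(k : ℝ)| ≤ (2 : ℝ) ^ (i - 1)) {y : ℤ} (hy : |(y : ℝ)| ≤ (2 : ℝ) ^ i)
    (hst : ∀ j ≤ n, (2 : ℝ) ^ (i - 1) ≤ |(((Td k)^[j] y : ℤ) : ℝ)|) :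
    2 ^ n ≤ 4 * 3 ^ ones (wd k n y) := by
  have hR : ∀ i < 2, |(r3 k i : ℝ)| ≤ |(k : ℝ)| := by
    intro i hi
    interval_cases i
    · simp [r3]
    · simp [r3]
  have hY : (0 : ℝ) < 2 ^ (i - 1) := by positivity
  have hk0 : 0 ≤ |(k : ℝ)| := abs_nonneg _
  have hnn : (0 : ℝ) ≤ n := Nat.cast_nonneg n
  have h6 := approx (adm3 hk) hR hk0 hY n (x := y) (fun j hj => by
    rw [Tm3]; exact hst j hj.le) (by nlinarith)
  rw [Tm3, Mu3] at h6
  push_cast at h6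
  set z : ℝ := (((Td k)^[n] y : ℤ) : ℝ) with hz
  set M : ℝ := (3 : ℝ) ^ ones (wd k n y) with hM
  have hM0 : 0 < M := by positivity
  have hD : (0 : ℝ) < 2 ^ n := by positivity
  have h8 : n * (2 * |(k : ℝ)| / (2 : ℝ) ^ (i - 1)) ≤ 1 / 2 := by
    rw [mul_div_assoc', div_le_iff₀ hY]; linarith
  have h9 : |M * y - (2 : ℝ) ^ n * z| ≤ 1 / 2 * ((2 : ℝ) ^ n * |z|) :=
    h6.trans (mul_le_mul_of_nonneg_right h8 (by positivity))
  have h10 : (2 : ℝ) ^ n * |z| ≤ 2 * (M * |(y : ℝ)|) := by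
    have e1 : (2 : ℝ) ^ n * |z| = |(2 : ℝ) ^ n * z| := by rw [abs_mul, abs_of_pos hD]
    have e2 := abs_sub_abs_le_abs_sub ((2 : ℝ) ^ n * z) (M * y)
    rw [abs_sub_comm, ← e1, abs_mul M, abs_of_pos hM0] at e2
    linarith
  have h11 : (2 : ℝ) ^ (i - 1) ≤ |z| := hst n le_rfl
  have h12 : (2 : ℝ) ^ n * (2 : ℝ) ^ (i - 1) ≤ (4 * M) * (2 : ℝ) ^ (i - 1) := by
    have e : (2 : ℝ) ^ i = 2 * (2 : ℝ) ^ (i - 1) := by rw [← pow_succ']; congr 1; omega
    calc (2 : ℝ) ^ n * (2 : ℝ) ^ (i - 1) ≤ (2 : ℝ) ^ n * |z| := mul_le_mul_of_nonneg_left h11 hD.le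
      _ ≤ 2 * (M * |(y : ℝ)|) := h10
      _ ≤ 2 * (M * (2 : ℝ) ^ i) := by
          apply mul_le_mul_of_nonneg_left _ (by norm_num)
          exact mul_le_mul_of_nonneg_left hy hM0.le
      _ = _ := by rw [e]; ring
  have h13 := le_of_mul_le_mul_right h12 hY
  rw [hM] at h13
  exact_mod_cast h13

theorem beta_pos : 0 < beta := lt_trans (by norm_num) beta_gt

/-- a convenient exponent below `beta` -/
theorem exists_eta {c : ℝ} (hc : 0 < c) : ∃ η : ℝ, 0 ≤ η ∧ η < beta ∧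
    ∀ i : ℕ, Real.exp (i * (Hh - c)) ≤ ((2 : ℝ) ^ η) ^ i := by
  have hl2 : 0 < Real.log 2 := Real.log_pos (by norm_num)
  refine ⟨max ((Hh - c) / Real.log 2) 0, le_max_right _ _, max_lt ?_ beta_pos, fun i => ?_⟩
  · rw [beta_eq]
    exact div_lt_div_of_pos_right (by linarith) hl2
  · rw [← Real.rpow_natCast, ← Real.rpow_mul (by norm_num), Real.rpow_def_of_pos (by norm_num)]
    apply Real.exp_le_exp.2
    have h1 : (Hh - c) / Real.log 2 ≤ max ((Hh - c) / Real.log 2) 0 := le_max_left _ _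
    rw [div_le_iff₀ hl2] at h1
    have h2 := mul_le_mul_of_nonneg_left h1 (Nat.cast_nonneg i : (0 : ℝ) ≤ i)
    linarith

/-- THE BOUND FOR THE STUCK SETS -/
theorem card_Sj3 {k : ℤ} (hk : Odd k) : ∃ τ η A : ℝ, 0 < τ ∧ τ ≤ 1 ∧ 0 ≤ η ∧ η < beta ∧ 0 ≤ A ∧
    ∀ i : ℕ, 1 ≤ i → ((Sj 2 m3 (r3 k) τ i).card : ℝ) ≤ A * (((2 : ℕ) : ℝ) ^ η) ^ i := by
  classical
  obtain ⟨τ, c, C, μ, hτ0, hτ1, hc, hC, hμ0, hμ1, hmain⟩ := EBQ.count_main
  obtain ⟨η, hη0, hη1, hη⟩ := exists_eta hc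
  have t1 : Tendsto (fun i : ℕ => μ * (i : ℝ)) atTop atTop :=
    Tendsto.const_mul_atTop hμ0 tendsto_natCast_atTop_atTop
  have t2 : Tendsto (fun i : ℕ => Real.exp (μ * (i : ℝ))) atTop atTop :=
    Real.tendsto_exp_atTop.comp t1
  have e1 : ∀ᶠ i : ℕ in atTop, max 4 |(k : ℝ)| ≤ Real.exp (μ * (i : ℝ)) :=
    t2.eventually_ge_atTop _
  have e2 : ∀ᶠ i : ℕ in atTop, 16 * (i : ℝ) * |(k : ℝ)| ≤ (2 : ℝ) ^ i := by
    have h1 := tendsto_pow_const_div_const_pow_of_one_lt 1 (show (1 : ℝ) < 2 by norm_num)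
    have h2 := h1.eventually_le_const (show (0 : ℝ) < 1 / (16 * (|(k : ℝ)| + 1)) by positivity)
    filter_upwards [h2] with i hi
    rw [div_le_div_iff₀ (by positivity) (by positivity), pow_one] at hi
    have : (0 : ℝ) ≤ i := Nat.cast_nonneg i
    nlinarith
  obtain ⟨i0, hi0⟩ := eventually_atTop.1 (e1.and e2)
  have h2η : (1 : ℝ) ≤ 2 ^ η := Real.one_le_rpow (by norm_num) hη0
  refine ⟨τ, η, max C (3 * 2 ^ i0), hτ0, by linarith, hη0, hη1, le_max_of_le_left hC.le, ?_⟩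
  intro i hi
  push_cast
  rcases lt_or_ge i i0 with hsm | hbig
  · have h1 : (Sj 2 m3 (r3 k) τ i).card ≤ 3 * 2 ^ i := by
      have h2 : Sj 2 m3 (r3 k) τ i ⊆ Icc (-(((2 : ℕ) : ℤ)) ^ i) ((((2 : ℕ) : ℤ)) ^ i) := by
        unfold Sj
        exact filter_subset _ _
      refine (card_le_card h2).trans ?_
      rw [Int.card_Icc]
      push_cast
      have : (1 : ℤ) ≤ 2 ^ i := one_le_pow₀ (by norm_num)
      have h5 : ((3 * 2 ^ i : ℕ) : ℤ) = 3 * 2 ^ i := by push_cast; rfl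
      omega
    have h2 : 3 * 2 ^ i ≤ 3 * 2 ^ i0 := Nat.mul_le_mul_left 3 (Nat.pow_le_pow_right (by norm_num) hsm.le)
    have h3 : ((Sj 2 m3 (r3 k) τ i).card : ℝ) ≤ 3 * 2 ^ i0 := by exact_mod_cast h1.trans h2
    calc ((Sj 2 m3 (r3 k) τ i).card : ℝ) ≤ 3 * 2 ^ i0 * 1 := by rw [mul_one]; exact h3
      _ ≤ max C (3 * 2 ^ i0) * ((2 : ℝ) ^ η) ^ i :=
          mul_le_mul (le_max_right _ _) (one_le_pow₀ h2η) (by norm_num)
            (le_max_of_le_left hC.le)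
  · obtain ⟨h1, h2⟩ := hi0 i hbig
    have h3 := hmain k hk i 4 (by norm_num) (by
      push_cast; exact (le_max_left _ _).trans h1) ((le_max_right _ _).trans h1) 0
      (Sj 2 m3 (r3 k) τ i) (by
        intro x hx
        unfold Sj at hx
        rw [mem_filter, mem_Icc] at hx
        push_cast at hx
        obtain ⟨⟨hx1, hx2⟩, hx3, hx4⟩ := hx
        refine ⟨by rw [sub_zero]; exact abs_le.2 ⟨hx1, hx2⟩, fun j hj => ?_⟩
        rw [Tm3] at hx4
        apply stay_mult hk hi _ hx3.le (fun n hn => hx4 n (hn.trans hj))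
        have hj2 : (j : ℝ) ≤ 2 * i := by
          have a1 : ⌊τ * (i : ℝ)⌋₊ ≤ i := by
            apply Nat.floor_le_of_le
            calc τ * (i : ℝ) ≤ 1 * i := mul_le_mul_of_nonneg_right (by linarith) (Nat.cast_nonneg i)
              _ = i := one_mul _
          have a2 : j ≤ 2 * i := by omega
          exact_mod_cast a2
        have e : (2 : ℝ) ^ i = 2 * (2 : ℝ) ^ (i - 1) := by rw [← pow_succ']; congr 1; omega
        have h5 : (j : ℝ) * |(k : ℝ)| ≤ 2 * i * |(k : ℝ)| :=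
          mul_le_mul_of_nonneg_right hj2 (abs_nonneg _)
        rw [e] at h2
        linarith)
    refine h3.trans ?_
    exact mul_le_mul (le_max_left _ _) (hη i) (Real.exp_pos _).le (le_max_of_le_left hC.le)

/-- UNIFORM POWER SAVING BEYOND THE ENTROPY BARRIER for the `3x+k` maps -/
theorem three' {k : ℤ} (hk : Odd k) : ∃ c : ℝ, 1 - beta < c ∧ ∃ C : ℝ, 0 < C ∧
    ∀ X y : ℝ, 1 ≤ X → 1 ≤ y →
    ({x : ℤ | |(x : ℝ)| ≤ X ∧ ∀ n : ℕ, y < |(((Td k)^[n] x : ℤ) : ℝ)|}.ncard : ℝ) ≤ C * X / y ^ c := by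
  obtain ⟨τ, η, A, hτ0, hτ1, hη0, hη1, hA, hSt⟩ := card_Sj3 hk
  have hb := beta_lt
  refine ⟨(1 - beta + (1 - η)) / 2, by linarith, ?_⟩
  have h := power_saving' (adm3 hk) hA hτ1 hη0 (by linarith) hSt
    (c := (1 - beta + (1 - η)) / 2) (by linarith) (by linarith)
  rw [Tm3] at h
  exact h

end Pool.Agent.TH930.PS
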