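import Pool.Agent.H828R3.GP.Pass

/-! First passages and points that stay above a level for `(1+τ)i` steps. -/

set_option autoImplicit false

namespace Pool.Agent.TH930.PS

open Finset Pool.Agent.H319R3.GC Pool.Agent.H828R3.GP

variable {d : ℕ} {m r : ℕ → ℤ}

open Classical in
/-- the points below `d^i` whose orbit stays above `d^(i-1)` for `i + ⌊τ i⌋` steps -/
noncomputable def Sj (d : ℕ) (m r : ℕ → ℤ) (τ : ℝ) (i : ℕ) : Finset ℤ :=
  (Icc (-(d : ℤ) ^ i) ((d : ℤ) ^ i)).filter (fun y => |(y : ℝ)| < (d : ℝ) ^ i ∧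
    ∀ j ≤ i + ⌊τ * i⌋₊, (d : ℝ) ^ (i - 1) ≤ |(((Tm d m r)^[j] y : ℤ) : ℝ)|)

theorem pass_next' {τ : ℝ} (hτ : τ ≤ 1) {i : ℕ} {y : ℤ}
    (hy : |(y : ℝ)| < (d : ℝ) ^ i) (hns : y ∉ Sj d m r τ i) :
    ∃ j ≤ 2 * i, |(((Tm d m r)^[j] y : ℤ) : ℝ)| < (d : ℝ) ^ (i - 1) := by
  classical
  by_contra hcon
  push Not at hcon
  apply hns
  unfold Sj
  rw [mem_filter]
  refine ⟨mem_Icc_of_abs hy, hy, fun j hj => hcon j (hj.trans ?_)⟩
  have h1 : ⌊τ * (i : ℝ)⌋₊ ≤ i := by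
    apply Nat.floor_le_of_le
    calc τ * (i : ℝ) ≤ 1 * i := mul_le_mul_of_nonneg_right hτ (Nat.cast_nonneg i)
      _ = i := one_mul _
  omega

theorem fp_step' (h : Adm d m r) {τ : ℝ} (hτ : τ ≤ 1) {i n : ℕ} {x : ℤ} (hfp : FP d m r i n x)
    (hns : (Tm d m r)^[n] x ∉ Sj d m r τ i) : ∃ n' ≤ n + 2 * i, FP d m r (i - 1) n' x := by
  classical
  have hd1 : (1 : ℝ) ≤ d := by exact_mod_cast (by have := h.two_le; omega : 1 ≤ d)
  have hpow : (d : ℝ) ^ (i - 1) ≤ (d : ℝ) ^ i := pow_le_pow_right₀ hd1 (by omega)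
  obtain ⟨j, hj, hjl⟩ := pass_next' hτ hfp.2 hns
  have hex : ∃ j, |(((Tm d m r)^[j] ((Tm d m r)^[n] x) : ℤ) : ℝ)| < (d : ℝ) ^ (i - 1) := ⟨j, hjl⟩
  refine ⟨n + Nat.find hex, Nat.add_le_add_left ((Nat.find_min' hex hjl).trans hj) _, ?_, ?_⟩
  · intro t ht
    rcases Nat.lt_or_ge t n with h3 | h3
    · exact hpow.trans (hfp.1 t h3)
    · obtain ⟨u, rfl⟩ := Nat.exists_eq_add_of_le h3
      have := Nat.find_min hex (m := u) (by omega)
      rw [← Function.iterate_add_apply, add_comm, not_lt] at this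
      exact this
  · have := Nat.find_spec hex
    rwa [← Function.iterate_add_apply, add_comm] at this

theorem descend' (h : Adm d m r) {τ : ℝ} (hτ : τ ≤ 1) {k l : ℕ} {x : ℤ} (hxk : |(x : ℝ)| < (d : ℝ) ^ k)
    (hbad : ∀ i, l < i → i ≤ k → ∀ n ≤ 2 * (k * k), FP d m r i n x → (Tm d m r)^[n] x ∉ Sj d m r τ i) :
    ∀ e, l + e ≤ k → ∃ n ≤ e * (2 * k), FP d m r (k - e) n x := by
  intro e
  induction e with
  | zero => intro _; exact ⟨0, by simp, by intro j hj; omega, by simpa using hxk⟩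
  | succ e ih =>
    intro he
    obtain ⟨n, hn, hfp⟩ := ih (by omega)
    have hnM : n ≤ 2 * (k * k) := by
      refine hn.trans ?_
      calc e * (2 * k) ≤ k * (2 * k) := Nat.mul_le_mul_right _ (by omega)
        _ = 2 * (k * k) := by ring
    obtain ⟨n', h1, h2⟩ := fp_step' h hτ (i := k - e) hfp
      (hbad _ (by omega) (by omega) n hnM hfp)
    refine ⟨n', ?_, by rwa [Nat.sub_sub] at h2⟩
    rw [add_mul, one_mul]
    omega

/-- THE POINTS OF A CLASS THAT STAY ABOVE `d^l` -/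
theorem card_stay' (h : Adm d m r) {R : ℝ} (hR : ∀ i < d, |(r i : ℝ)| ≤ R) (hR0 : 0 ≤ R) {τ A K : ℝ}
    (hτ : τ ≤ 1) (hA : 0 ≤ A) (hK1 : 1 ≤ K) (hKd : K < d)
    (hSt : ∀ i : ℕ, 1 ≤ i → ((Sj d m r τ i).card : ℝ) ≤ A * K ^ i)
    {k l q : ℕ} (hq : 0 < q) (c : ℤ) (hk1 : 1 ≤ k) (hlk : l ≤ k)
    (hl : 4 * (2 * (k * k)) * R ≤ (d : ℝ) ^ l) (S : Finset ℤ)
    (hS : ∀ x ∈ S, |(x : ℝ)| < (d : ℝ) ^ k ∧ (q : ℤ) ∣ x - c ∧
      ∀ n : ℕ, (d : ℝ) ^ l ≤ |(((Tm d m r)^[n] x : ℤ) : ℝ)|) :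
    (S.card : ℝ) ≤ k * (A * ((2 * (k * k) + 1) ^ (d + 1) *
      (8 * (2 * (k * k)) * R * d * ((d : ℝ) ^ k * (K / d) ^ l) / q + (d : ℝ) ^ k * (K / d) ^ k))) := by
  classical
  have hqR : (0 : ℝ) < q := by exact_mod_cast hq
  have hd1 : (1 : ℝ) ≤ d := by exact_mod_cast (by have := h.two_le; omega : 1 ≤ d)
  have hd0 : (0 : ℝ) < d := by linarith
  have hkR : (1 : ℝ) ≤ k := by exact_mod_cast hk1
  have hK0 : 0 < K := by linarith
  have hκ1 : K / d ≤ 1 := by rw [div_le_one hd0]; exact hKd.le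
  have hκ0 : 0 ≤ K / d := by positivity
  have hsub : S ⊆ (Ioc l k).biUnion (fun i => Pa d m r k i (2 * (k * k)) q c (Sj d m r τ i)) := by
    intro x hx
    obtain ⟨h1, h2, h3⟩ := hS x hx
    by_contra hcon
    simp only [mem_biUnion, mem_Ioc, not_exists, not_and] at hcon
    obtain ⟨n, -, hfp⟩ := descend' h hτ (k := k) (l := l) h1 (by
      intro i hi hik n hn hfp hst
      apply hcon i ⟨hi, hik⟩
      unfold Pa
      rw [mem_filter]
      exact ⟨mem_Icc_of_abs h1, h1, h2, n, hn, hfp, hst⟩) (k - l) (by omega)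
    have e : k - (k - l) = l := by omega
    rw [e] at hfp
    have h4 := hfp.2
    have h5 := h3 n
    linarith
  have h1 : (S.card : ℝ) ≤ ∑ i ∈ Ioc l k, ((Pa d m r k i (2 * (k * k)) q c (Sj d m r τ i)).card : ℝ) := by
    exact_mod_cast (card_le_card hsub).trans card_biUnion_le
  set W : ℝ := A * ((2 * (k * k) + 1) ^ (d + 1) *
      (8 * (2 * (k * k)) * R * d * ((d : ℝ) ^ k * (K / d) ^ l) / q + (d : ℝ) ^ k * (K / d) ^ k)) with hW
  have hW0 : 0 ≤ W := by positivity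
  have h2 : ∀ i ∈ Ioc l k, ((Pa d m r k i (2 * (k * k)) q c (Sj d m r τ i)).card : ℝ) ≤ W := by
    intro i hi
    rw [mem_Ioc] at hi
    have a1 := card_Pa h hR hR0 (k := k) (i := i) (N := 2 * (k * k)) (q := q) (by omega) hi.2 (by
      push_cast
      exact hl.trans (pow_le_pow_right₀ hd1 hi.1.le)) hq c (Sj d m r τ i) (by
      intro y hy
      unfold Sj at hy
      rw [mem_filter] at hy
      have := hy.2.2 0 (Nat.zero_le _)
      simpa using this)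
    have a2 := hSt i (by omega)
    refine a1.trans ?_
    push_cast
    have a4 : K ^ i ≤ K ^ k := pow_le_pow_right₀ hK1 hi.2
    have a5 : K ^ i * (d : ℝ) ^ (k - i + 1) ≤ d * ((d : ℝ) ^ k * (K / d) ^ l) := by
      have e1 : K ^ i = (d : ℝ) ^ i * (K / d) ^ i := by rw [← mul_pow]; congr 1; field_simp
      have e2 : (K / d) ^ i ≤ (K / d) ^ l := pow_le_pow_of_le_one hκ0 hκ1 hi.1.le
      have e3 : (d : ℝ) ^ i * (d : ℝ) ^ (k - i + 1) = d * (d : ℝ) ^ k := by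
        rw [← pow_add, ← pow_succ']; congr 1; omega
      calc K ^ i * (d : ℝ) ^ (k - i + 1) = ((d : ℝ) ^ i * (d : ℝ) ^ (k - i + 1)) * (K / d) ^ i := by
            rw [e1]; ring
        _ ≤ ((d : ℝ) ^ i * (d : ℝ) ^ (k - i + 1)) * (K / d) ^ l :=
            mul_le_mul_of_nonneg_left e2 (by positivity)
        _ = _ := by rw [e3]; ring
    have a6 : K ^ k = (d : ℝ) ^ k * (K / d) ^ k := by rw [← mul_pow]; congr 1; field_simp
    have a7 : (Sj d m r τ i).card * (8 * (2 * ((k : ℝ) * k)) * R * (d : ℝ) ^ (k - i + 1) / q + 1) ≤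
        A * (8 * (2 * (k * k)) * R * d * ((d : ℝ) ^ k * (K / d) ^ l) / q +
          (d : ℝ) ^ k * (K / d) ^ k) := by
      refine (mul_le_mul_of_nonneg_right a2 (by positivity)).trans ?_
      rw [mul_assoc A]
      apply mul_le_mul_of_nonneg_left _ hA
      rw [mul_add, mul_one]
      apply add_le_add
      · calc K ^ i * (8 * (2 * ((k : ℝ) * k)) * R * (d : ℝ) ^ (k - i + 1) / q)
            = 8 * (2 * ((k : ℝ) * k)) * R * (K ^ i * (d : ℝ) ^ (k - i + 1)) / q := by ring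
          _ ≤ 8 * (2 * ((k : ℝ) * k)) * R * (d * ((d : ℝ) ^ k * (K / d) ^ l)) / q := by
              apply div_le_div_of_nonneg_right _ hqR.le
              exact mul_le_mul_of_nonneg_left a5 (by positivity)
          _ = _ := by ring
      · rw [← a6]; exact a4
    calc ((Sj d m r τ i).card : ℝ) * ((2 * (k * k) + 1) * ((2 * (k * k) + 1) ^ d *
          (8 * (2 * (k * k)) * R * (d : ℝ) ^ (k - i + 1) / q + 1)))
        = (2 * (k * k) + 1) ^ (d + 1) * ((Sj d m r τ i).card *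
          (8 * (2 * (k * k)) * R * (d : ℝ) ^ (k - i + 1) / q + 1)) := by ring
      _ ≤ (2 * (k * k) + 1) ^ (d + 1) * (A *
          (8 * (2 * (k * k)) * R * d * ((d : ℝ) ^ k * (K / d) ^ l) / q + (d : ℝ) ^ k * (K / d) ^ k)) :=
          mul_le_mul_of_nonneg_left a7 (by positivity)
      _ = W := by rw [hW]; ring
  calc (S.card : ℝ) ≤ ∑ i ∈ Ioc l k, ((Pa d m r k i (2 * (k * k)) q c (Sj d m r τ i)).card : ℝ) := h1
    _ ≤ (Ioc l k).card • W := sum_le_card_nsmul _ _ _ h2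
    _ = ((k - l : ℕ) : ℝ) * W := by rw [Nat.card_Ioc, nsmul_eq_mul]
    _ ≤ k * W := by
        apply mul_le_mul_of_nonneg_right _ hW0
        exact_mod_cast Nat.sub_le _ _

end Pool.Agent.TH930.PS
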