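import Pool.Agent.TH930.PS.Three

/-! Integers whose orbit does not descend within `(1+τ)N` steps, in arbitrary intervals of length `2^N`,
uniformly in `k`. -/

set_option autoImplicit false

namespace Pool.Agent.TH930.PS

open Finset Filter Topology Pool.Agent.H499R2.ND Pool.Agent.H828R3.GP
open Pool.Agent.H319R3.GC (Adm Tm PP)
open Pool.Agent.H319R2 (beta beta_lt beta_gt)
open Pool.Agent.TH930.EBQ (ones wd kap Hh)

/-- exponentials beat linear functions -/
theorem lin_le_exp {a : ℝ} (ha : 0 < a) (L : ℝ) : ∀ᶠ N : ℕ in atTop, L * ((N : ℝ) + 1) ≤ Real.exp (a * N) := by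
  have h1 : Tendsto (fun N : ℕ => (N : ℝ) ^ 1 * Real.exp (-a * N)) atTop (𝓝 0) := by
    have := (Real.tendsto_pow_mul_exp_neg_atTop_nhds_zero 1).comp
      (Tendsto.const_mul_atTop ha tendsto_natCast_atTop_atTop)
    have h2 := this.const_mul (1 / a)
    rw [mul_zero] at h2
    refine h2.congr (fun N => ?_)
    simp only [Function.comp, pow_one]
    rw [neg_mul]
    field_simp
  have h2 : Tendsto (fun N : ℕ => Real.exp (-a * N)) atTop (𝓝 0) := by
    have := Real.tendsto_exp_neg_atTop_nhds_zero.comp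
      (Tendsto.const_mul_atTop ha tendsto_natCast_atTop_atTop)
    refine this.congr (fun N => ?_)
    simp only [Function.comp]
    rw [neg_mul]
  have h3 := (h1.const_mul L).add (h2.const_mul L)
  rw [mul_zero, add_zero] at h3
  have h4 := h3.eventually_le_const (show (0 : ℝ) < 1 by norm_num)
  filter_upwards [h4] with N hN
  rw [pow_one, ← mul_assoc, ← add_mul] at hN
  have h5 : Real.exp (-a * N) * Real.exp (a * N) = 1 := by
    rw [← Real.exp_add]; simp
  have h6 := Real.exp_pos (a * N)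
  calc L * ((N : ℝ) + 1) = ((L * N + L) * Real.exp (-a * N)) * Real.exp (a * N) := by
        rw [mul_assoc, h5]; ring
    _ ≤ 1 * Real.exp (a * N) := mul_le_mul_of_nonneg_right hN h6.le
    _ = _ := one_mul _

/-- the multiplier along an orbit that stays above a level -/
theorem stay_mult' {k : ℤ} (hk : Odd k) {n : ℕ} {Y : ℝ} (hY : 0 < Y)
    (hn : 4 * (n : ℝ) * |(k : ℝ)| ≤ Y) {y : ℤ}
    (hst : ∀ j ≤ n, Y ≤ |(((Td k)^[j] y : ℤ) : ℝ)|) :
    (2 : ℝ) ^ n * |(((Td k)^[n] y : ℤ) : ℝ)| ≤ 2 * ((3 : ℝ) ^ ones (wd k n y) * |(y : ℝ)|) := by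
  have hR : ∀ i < 2, |(r3 k i : ℝ)| ≤ |(k : ℝ)| := by
    intro i hi
    interval_cases i
    · simp [r3]
    · simp [r3]
  have hk0 : 0 ≤ |(k : ℝ)| := abs_nonneg _
  have hnn : (0 : ℝ) ≤ n := Nat.cast_nonneg n
  have h6 := approx (adm3 hk) hR hk0 hY n (x := y) (fun j hj => by
    rw [Tm3]; exact hst j hj.le) (by nlinarith)
  rw [Tm3, Mu3] at h6
  push_cast at h6
  set z : ℝ := (((Td k)^[n] y : ℤ) : ℝ) with hz
  set M : ℝ := (3 : ℝ) ^ ones (wd k n y) with hM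
  have hM0 : 0 < M := by positivity
  have hD : (0 : ℝ) < 2 ^ n := by positivity
  have h8 : n * (2 * |(k : ℝ)| / Y) ≤ 1 / 2 := by
    rw [mul_div_assoc', div_le_iff₀ hY]; linarith
  have h9 : |M * y - (2 : ℝ) ^ n * z| ≤ 1 / 2 * ((2 : ℝ) ^ n * |z|) :=
    h6.trans (mul_le_mul_of_nonneg_right h8 (by positivity))
  have e1 : (2 : ℝ) ^ n * |z| = |(2 : ℝ) ^ n * z| := by rw [abs_mul, abs_of_pos hD]
  have e2 := abs_sub_abs_le_abs_sub ((2 : ℝ) ^ n * z) (M * y)
  rw [abs_sub_comm, ← e1, abs_mul M, abs_of_pos hM0] at e2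
  linarith

/-- the number of integers of a finset within distance `2^N` of `u` -/
theorem card_trivial {N : ℕ} {u : ℤ} {B : Finset ℤ} (hB : ∀ x ∈ B, |x - u| ≤ 2 ^ N) :
    (B.card : ℝ) ≤ 3 * 2 ^ N := by
  have h2 : B ⊆ Icc (u - (2 : ℤ) ^ N) (u + 2 ^ N) := by
    intro x hx
    rw [mem_Icc]
    have := abs_le.1 (hB x hx)
    constructor <;> linarith [this.1, this.2]
  have h3 := card_le_card h2
  rw [Int.card_Icc] at h3
  have h4 : (u + (2 : ℤ) ^ N + 1 - (u - (2 : ℤ) ^ N)).toNat ≤ 3 * 2 ^ N := by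
    have : (1 : ℤ) ≤ 2 ^ N := one_le_pow₀ (by norm_num)
    have h5 : ((3 * 2 ^ N : ℕ) : ℤ) = 3 * 2 ^ N := by push_cast; rfl
    omega
  exact_mod_cast h3.trans h4

/-- THE BOUND FOR THE INTEGERS WHICH DO NOT DESCEND WITHIN `(1+τ)N` STEPS -/
theorem stop_count : ∃ ε τ μ A b : ℝ, 0 < ε ∧ ε < beta ∧ 0 < τ ∧ 0 < μ ∧ 0 < A ∧ 0 ≤ b ∧
    ∀ k : ℤ, Odd k → ∀ (N : ℕ) (u : ℤ) (B : Finset ℤ), (∀ x ∈ B, |x - u| ≤ 2 ^ N ∧
      ∀ j : ℕ, (j : ℝ) ≤ (1 + τ) * N → |(x : ℝ)| ≤ (2 : ℝ) ^ (μ * N) * |(((Td k)^[j] x : ℤ) : ℝ)|) →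
    (B.card : ℝ) ≤ A * |(k : ℝ)| ^ b * (2 : ℝ) ^ ((beta - ε) * N) := by
  classical
  obtain ⟨τ, c, C, μ0, hτ0, hτ1, hc, hC, hμ0, hμ1, hmain⟩ := EBQ.count_main
  obtain ⟨η0, hη0, hη1, hη⟩ := exists_eta hc
  have hbg := beta_gt
  have hbl := beta_lt
  -- the exponent
  set η : ℝ := max η0 (1 / 2) with hηd
  have hηb : η < beta := max_lt hη1 (by linarith)
  have hη2 : 1 / 2 ≤ η := le_max_right _ _
  have hη3 : η0 ≤ η := le_max_left _ _
  have hl2 : 0 < Real.log 2 := Real.log_pos (by norm_num)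
  have hl2a := Real.log_two_gt_d9
  have hl2b := Real.log_two_lt_d9
  set μ : ℝ := min (1 / 8) (μ0 / 2) with hμd
  have hμp : 0 < μ := lt_min (by norm_num) (by positivity)
  have hμ8 : μ ≤ 1 / 8 := min_le_left _ _
  have hμ9 : μ ≤ μ0 / 2 := min_le_right _ _
  set μ2 : ℝ := min (1 / 32) μ0 with hμ2d
  have hμ2p : 0 < μ2 := lt_min (by norm_num) hμ0
  have hμ2a : μ2 ≤ 1 / 32 := min_le_left _ _
  have hμ2b : μ2 ≤ μ0 := min_le_right _ _
  -- large `N`
  have e1 := lin_le_exp (a := 1 / 16) (by norm_num) 8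
  have e2 : ∀ᶠ N : ℕ in atTop, 4 * Real.log 2 / μ0 ≤ (N : ℝ) :=
    tendsto_natCast_atTop_atTop.eventually_ge_atTop _
  have e3 : ∀ᶠ N : ℕ in atTop, (8 : ℝ) ≤ (N : ℝ) :=
    tendsto_natCast_atTop_atTop.eventually_ge_atTop _
  obtain ⟨N0, hN0⟩ := eventually_atTop.1 ((e1.and e2).and e3)
  set b : ℝ := Real.log 2 / μ2 with hb
  have hb0 : 0 ≤ b := by positivity
  refine ⟨beta - η, τ, μ, max (C + 3) (3 * 2 ^ N0), b, by linarith, by linarith, hτ0, hμp,
    lt_max_of_lt_left (by linarith), hb0, ?_⟩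
  intro k hk N u B hB
  have hk0 : k ≠ 0 := by rintro rfl; simp at hk
  have hk1 : (1 : ℝ) ≤ |(k : ℝ)| := by
    have : (1 : ℤ) ≤ |k| := Int.one_le_abs hk0
    exact_mod_cast this
  have hkb : (1 : ℝ) ≤ |(k : ℝ)| ^ b := Real.one_le_rpow hk1 hb0
  have hNn : (0 : ℝ) ≤ N := Nat.cast_nonneg N
  have eη : beta - (beta - η) = η := by ring
  rw [eη]
  have h2η : (1 : ℝ) ≤ (2 : ℝ) ^ (η * N) := Real.one_le_rpow (by norm_num) (by positivity)
  have htriv := card_trivial (fun x hx => (hB x hx).1)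
  rcases lt_or_ge N N0 with hsm | hbig
  · have h1 : (2 : ℝ) ^ N ≤ 2 ^ N0 := pow_le_pow_right₀ (by norm_num) hsm.le
    calc (B.card : ℝ) ≤ 3 * 2 ^ N := htriv
      _ ≤ 3 * 2 ^ N0 := by linarith
      _ ≤ max (C + 3) (3 * 2 ^ N0) := le_max_right _ _
      _ = max (C + 3) (3 * 2 ^ N0) * 1 * 1 := by ring
      _ ≤ max (C + 3) (3 * 2 ^ N0) * |(k : ℝ)| ^ b * (2 : ℝ) ^ (η * N) := by
          apply mul_le_mul _ h2η zero_le_one (by positivity)
          exact mul_le_mul_of_nonneg_left hkb (by positivity)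
  rcases lt_or_ge (Real.exp (μ2 * N)) |(k : ℝ)| with hkbig | hksm
  · have h1 : (2 : ℝ) ^ N ≤ |(k : ℝ)| ^ b := by
      rw [← Real.rpow_natCast, Real.rpow_def_of_pos (by norm_num), Real.rpow_def_of_pos (by linarith)]
      apply Real.exp_le_exp.2
      have h2 : μ2 * N ≤ Real.log |(k : ℝ)| := by
        have := Real.log_le_log (Real.exp_pos _) hkbig.le
        rwa [Real.log_exp] at this
      rw [hb]
      calc Real.log 2 * N = (μ2 * N) * (Real.log 2 / μ2) := by field_simp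
        _ ≤ _ := mul_le_mul_of_nonneg_right h2 (by positivity)
    calc (B.card : ℝ) ≤ 3 * 2 ^ N := htriv
      _ ≤ (C + 3) * |(k : ℝ)| ^ b := by
          have : 0 ≤ C * |(k : ℝ)| ^ b := by positivity
          nlinarith
      _ ≤ max (C + 3) (3 * 2 ^ N0) * |(k : ℝ)| ^ b * 1 := by
          rw [mul_one]
          exact mul_le_mul_of_nonneg_right (le_max_left _ _) (by positivity)
      _ ≤ _ := mul_le_mul_of_nonneg_left h2η (by positivity)
  -- the main case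
  obtain ⟨⟨h1, h2⟩, h3⟩ := hN0 N hbig
  have hNp : (0 : ℝ) < N := by linarith
  -- small elements
  set Y : ℝ := (2 : ℝ) ^ ((1 : ℝ) / 4 * N) with hY
  have hY0 : 0 < Y := Real.rpow_pos_of_pos (by norm_num) _
  set B1 := B.filter (fun x : ℤ => |(x : ℝ)| < (2 : ℝ) ^ ((1 : ℝ) / 2 * N)) with hB1
  set B2 := B.filter (fun x : ℤ => ¬ |(x : ℝ)| < (2 : ℝ) ^ ((1 : ℝ) / 2 * N)) with hB2
  have hsplit : (B.card : ℝ) = B1.card + B2.card := by
    rw [hB1, hB2]
    exact_mod_cast (card_filter_add_card_filter_not (s := B) _).symm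
  have hc1 : (B1.card : ℝ) ≤ 3 * (2 : ℝ) ^ (η * N) := by
    set M : ℝ := (2 : ℝ) ^ ((1 : ℝ) / 2 * N) with hM
    have hM1 : 1 ≤ M := Real.one_le_rpow (by norm_num) (by positivity)
    have h4 : B1 ⊆ Icc (-⌊M⌋) ⌊M⌋ := by
      intro x hx
      rw [hB1, mem_filter] at hx
      have h5 := abs_lt.1 hx.2
      rw [mem_Icc]
      constructor
      · have : -x ≤ ⌊M⌋ := Int.le_floor.2 (by push_cast; linarith)
        linarith
      · exact Int.le_floor.2 h5.2.le
    have h5 := card_le_card h4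
    rw [Int.card_Icc] at h5
    have h6 : (0 : ℤ) ≤ ⌊M⌋ := Int.floor_nonneg.2 (by linarith)
    have h7 : ((⌊M⌋ + 1 - -⌊M⌋).toNat : ℝ) = 2 * (⌊M⌋ : ℝ) + 1 := by
      have h8 : (((⌊M⌋ + 1 - -⌊M⌋).toNat : ℤ)) = 2 * ⌊M⌋ + 1 := by
        rw [Int.toNat_of_nonneg (by omega)]; ring
      exact_mod_cast h8
    have h8 : (B1.card : ℝ) ≤ 2 * (⌊M⌋ : ℝ) + 1 := by
      rw [← h7]; exact_mod_cast h5
    have h9 := Int.floor_le M
    have h10 : M ≤ (2 : ℝ) ^ (η * N) := by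
      rw [hM]
      apply Real.rpow_le_rpow_of_exponent_le (by norm_num)
      exact mul_le_mul_of_nonneg_right hη2 hNn
    linarith
  have hc2 : (B2.card : ℝ) ≤ C * (2 : ℝ) ^ (η * N) := by
    set q : ℕ := ⌈μ * N⌉₊ + 1 with hq
    have hceil1 : μ * N ≤ (⌈μ * (N : ℝ)⌉₊ : ℝ) := Nat.le_ceil _
    have hceil2 : (⌈μ * (N : ℝ)⌉₊ : ℝ) < μ * N + 1 := Nat.ceil_lt_add_one (by positivity)
    have hQexp : (((2 ^ q : ℕ)) : ℝ) ≤ Real.exp (μ0 * N) := by
      push_cast
      rw [← Real.rpow_natCast, Real.rpow_def_of_pos (by norm_num)]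
      apply Real.exp_le_exp.2
      have h5 : (q : ℝ) ≤ μ * N + 2 := by rw [hq]; push_cast; linarith
      have h6 : Real.log 2 * (q : ℝ) ≤ Real.log 2 * (μ * N + 2) := mul_le_mul_of_nonneg_left h5 hl2.le
      have h7 : 4 * Real.log 2 ≤ μ0 * N := by
        rw [div_le_iff₀ hμ0] at h2; linarith
      have h8 : μ * N ≤ μ0 / 2 * N := mul_le_mul_of_nonneg_right hμ9 hNn
      have h9 : Real.log 2 * (μ * N) ≤ 1 * (μ0 / 2 * N) :=
        mul_le_mul (by linarith) h8 (by positivity) (by norm_num)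
      linarith
    have hk2 : |(k : ℝ)| ≤ Real.exp (μ0 * N) := by
      refine hksm.trans (Real.exp_le_exp.2 ?_)
      exact mul_le_mul_of_nonneg_right hμ2b hNn
    have h5 := hmain k hk N (2 ^ q) Nat.one_le_two_pow hQexp hk2 u B2 (by
      intro x hx
      rw [hB2, mem_filter] at hx
      obtain ⟨hxB, hxM⟩ := hx
      rw [not_lt] at hxM
      obtain ⟨hx1, hx2⟩ := hB x hxB
      refine ⟨hx1, fun j hj => ?_⟩
      have hjr : (j : ℝ) ≤ (1 + τ) * N := by
        have a1 : (⌊τ * (N : ℝ)⌋₊ : ℝ) ≤ τ * N := Nat.floor_le (by positivity)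
        have a2 : (j : ℝ) ≤ (N : ℝ) + ⌊τ * (N : ℝ)⌋₊ := by exact_mod_cast hj
        linarith
      have hj2 : (j : ℝ) ≤ 2 * N := by
        refine hjr.trans ?_
        have : τ * (N : ℝ) ≤ 1 * N := mul_le_mul_of_nonneg_right (by linarith) hNn
        linarith
      have hpμ : (0 : ℝ) < (2 : ℝ) ^ (μ * N) := Real.rpow_pos_of_pos (by norm_num) _
      have hstY : ∀ i ≤ j, Y ≤ |(((Td k)^[i] x : ℤ) : ℝ)| := by
        intro i hi
        have hir : (i : ℝ) ≤ (1 + τ) * N := by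
          have : (i : ℝ) ≤ j := by exact_mod_cast hi
          linarith
        have h6 := hxM.trans (hx2 i hir)
        have h7 : (2 : ℝ) ^ ((1 : ℝ) / 2 * N) = (2 : ℝ) ^ ((1 : ℝ) / 2 * N - μ * N) * (2 : ℝ) ^ (μ * N) := by
          rw [← Real.rpow_add (by norm_num)]; congr 1; ring
        rw [h7, mul_comm ((2 : ℝ) ^ (μ * N))] at h6
        have h8 := le_of_mul_le_mul_right h6 hpμ
        refine le_trans ?_ h8
        rw [hY]
        apply Real.rpow_le_rpow_of_exponent_le (by norm_num)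
        have : μ * N ≤ 1 / 8 * N := mul_le_mul_of_nonneg_right hμ8 hNn
        linarith
      have h6 : 4 * (j : ℝ) * |(k : ℝ)| ≤ Y := by
        have a1 : Y = Real.exp (Real.log 2 / 4 * N) := by
          rw [hY, Real.rpow_def_of_pos (by norm_num)]; congr 1; ring
        have a2 : 4 * (j : ℝ) ≤ Real.exp (1 / 16 * N) := by
          refine le_trans ?_ h1
          linarith
        calc 4 * (j : ℝ) * |(k : ℝ)| ≤ Real.exp (1 / 16 * N) * Real.exp (μ2 * N) :=
              mul_le_mul a2 hksm (abs_nonneg _) (Real.exp_pos _).le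
          _ = Real.exp ((1 / 16 + μ2) * N) := by rw [← Real.exp_add]; congr 1; ring
          _ ≤ Y := by
              rw [a1]
              apply Real.exp_le_exp.2
              apply mul_le_mul_of_nonneg_right _ hNn
              linarith
      have h7 := stay_mult' hk hY0 h6 hstY
      -- compare
      have hx0 : 0 < |(x : ℝ)| := lt_of_lt_of_le (Real.rpow_pos_of_pos (by norm_num) _) hxM
      have h8 := hx2 j hjr
      set z : ℝ := |(((Td k)^[j] x : ℤ) : ℝ)| with hz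
      have h9 : (2 : ℝ) ^ j * |(x : ℝ)| ≤ ((2 : ℝ) ^ q * (3 : ℝ) ^ ones (wd k j x)) * |(x : ℝ)| := by
        calc (2 : ℝ) ^ j * |(x : ℝ)| ≤ (2 : ℝ) ^ j * ((2 : ℝ) ^ (μ * N) * z) :=
              mul_le_mul_of_nonneg_left h8 (by positivity)
          _ = (2 : ℝ) ^ (μ * N) * ((2 : ℝ) ^ j * z) := by ring
          _ ≤ (2 : ℝ) ^ (μ * N) * (2 * ((3 : ℝ) ^ ones (wd k j x) * |(x : ℝ)|)) :=
              mul_le_mul_of_nonneg_left h7 hpμ.le
          _ = ((2 : ℝ) ^ (μ * N) * 2) * ((3 : ℝ) ^ ones (wd k j x) * |(x : ℝ)|) := by ring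
          _ ≤ (2 : ℝ) ^ q * ((3 : ℝ) ^ ones (wd k j x) * |(x : ℝ)|) := by
              apply mul_le_mul_of_nonneg_right _ (by positivity)
              rw [hq, pow_succ]
              apply mul_le_mul_of_nonneg_right _ (by norm_num)
              rw [← Real.rpow_natCast (2 : ℝ) ⌈μ * (N : ℝ)⌉₊]
              exact Real.rpow_le_rpow_of_exponent_le (by norm_num) hceil1
          _ = _ := by ring
      have h10 := le_of_mul_le_mul_right h9 hx0
      exact_mod_cast h10)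
    refine h5.trans (mul_le_mul_of_nonneg_left ((hη N).trans ?_) hC.le)
    rw [← Real.rpow_natCast, ← Real.rpow_mul (by norm_num)]
    apply Real.rpow_le_rpow_of_exponent_le (by norm_num)
    exact mul_le_mul_of_nonneg_right hη3 hNn
  calc (B.card : ℝ) ≤ (C + 3) * 1 * (2 : ℝ) ^ (η * N) := by rw [hsplit]; linarith
    _ ≤ max (C + 3) (3 * 2 ^ N0) * |(k : ℝ)| ^ b * (2 : ℝ) ^ (η * N) := by
        apply mul_le_mul_of_nonneg_right _ (by positivity)
        exact mul_le_mul (le_max_left _ _) hkb zero_le_one (by positivity)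

end Pool.Agent.TH930.PS
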