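import Pool.Agent.TH930.PS.Three

/-! Densities of invariant sets without small elements. -/

set_option autoImplicit false

namespace Pool.Agent.TH930.PS

open Finset Filter Topology Pool.Agent.H499R2.ND Pool.Agent.H828R3.GP
open Pool.Agent.H319R2 (beta beta_lt beta_gt)

theorem side' {k : ℤ} {c C : ℝ} (hC : 0 < C) (h : ∀ X y : ℝ, 1 ≤ X → 1 ≤ y →
    ({x : ℤ | |(x : ℝ)| ≤ X ∧ ∀ n : ℕ, y < |(((Td k)^[n] x : ℤ) : ℝ)|}.ncard : ℝ) ≤ C * X / y ^ c)
    {s : ℤ} (hs : s = 1 ∨ s = -1) : ∀ y : ℝ, 1 ≤ y → ∀ X : ℝ, 0 ≤ X →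
      G {x | s * x ∈ Stay k y} X ≤ C * X / y ^ c := by
  intro y hy X hX
  have hyc : 0 < y ^ c := Real.rpow_pos_of_pos (by linarith) _
  rcases lt_or_ge X 1 with hX1 | hX1
  · have h1 : pos {x | s * x ∈ Stay k y} X = ∅ := by
      rw [Finset.eq_empty_iff_forall_notMem]
      intro x hx
      rw [mem_pos] at hx
      have : (1 : ℝ) ≤ (x : ℝ) := by exact_mod_cast hx.1.1
      linarith [hx.1.2]
    unfold G
    rw [h1, card_empty, Nat.cast_zero]
    positivity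
  refine le_trans ?_ (h X y hX1 hy)
  unfold G
  have hfin : {x : ℤ | |(x : ℝ)| ≤ X ∧ ∀ n : ℕ, y < |(((Td k)^[n] x : ℤ) : ℝ)|}.Finite := by
    apply (Set.finite_Icc (-⌈X⌉) ⌈X⌉).subset
    rintro x ⟨hx, -⟩
    have h1 := abs_le.1 hx
    have h2 := Int.le_ceil X
    rw [Set.mem_Icc]
    constructor
    · have : (-(⌈X⌉ : ℤ) : ℝ) ≤ x := by linarith
      exact_mod_cast this
    · have : (x : ℝ) ≤ (⌈X⌉ : ℤ) := by linarith
      exact_mod_cast this
  have hinj : ((pos {x | s * x ∈ Stay k y} X).image (fun x => s * x)).card =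
      (pos {x | s * x ∈ Stay k y} X).card := by
    apply card_image_of_injective
    intro a b hab
    simp only at hab
    rcases hs with rfl | rfl <;> linarith
  have hsub : (((pos {x | s * x ∈ Stay k y} X).image (fun x => s * x) : Finset ℤ) : Set ℤ) ⊆
      {x : ℤ | |(x : ℝ)| ≤ X ∧ ∀ n : ℕ, y < |(((Td k)^[n] x : ℤ) : ℝ)|} := by
    intro z hz
    rw [mem_coe, mem_image] at hz
    obtain ⟨x, hx, rfl⟩ := hz
    rw [mem_pos] at hx
    refine ⟨?_, hx.2⟩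
    have h1 : (1 : ℝ) ≤ (x : ℝ) := by exact_mod_cast hx.1.1
    push_cast
    rw [abs_mul]
    have h2 : |(s : ℝ)| = 1 := by rcases hs with rfl | rfl <;> simp
    rw [h2, one_mul, abs_of_pos (by linarith)]
    exact hx.1.2.le
  have h3 := Set.ncard_le_ncard hsub hfin
  rw [Set.ncard_coe_finset, hinj] at h3
  exact_mod_cast h3

/-- an invariant set with no element in `[-y,y]` has density `≤ C y^(-c)` -/
theorem tail' {k : ℤ} {c C : ℝ} (hC : 0 < C) (h : ∀ X y : ℝ, 1 ≤ X → 1 ≤ y →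
    ({x : ℤ | |(x : ℝ)| ≤ X ∧ ∀ n : ℕ, y < |(((Td k)^[n] x : ℤ) : ℝ)|}.ncard : ℝ) ≤ C * X / y ^ c)
    {s : ℤ} (hs : s = 1 ∨ s = -1) : ∀ y : ℝ, 1 ≤ y → ∀ S : Set ℤ, Inv k S →
      (∀ x ∈ S, y < |(x : ℝ)|) → ∀ l : ℝ, HD s S l → l ≤ C / y ^ c := by
  intro y hy S hS hSy l hl
  have hyc : 0 < y ^ c := Real.rpow_pos_of_pos (by linarith) _
  apply le_of_tendsto hl
  filter_upwards [eventually_gt_atTop (0 : ℝ)] with X hX
  rw [div_le_div_iff₀ hX (by positivity)]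
  have h1 := side' hC h hs y hy X hX.le
  rw [le_div_iff₀ (by positivity)] at h1
  refine le_trans ?_ h1
  apply mul_le_mul_of_nonneg_right _ (by positivity)
  unfold G
  have : pos {x | s * x ∈ S} X ⊆ pos {x | s * x ∈ Stay k y} X := by
    intro x hx
    rw [mem_pos] at hx ⊢
    refine ⟨hx.1, fun n => hSy _ ((inv_iter hS n _).1 hx.2)⟩
  exact_mod_cast card_le_card this

end Pool.Agent.TH930.PS
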